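import Pool.Agent.helper15.DH.Spec

set_option autoImplicit false

open Complex MeasureTheory

namespace Pool.Agent.DH

open Pool.Agent.helper84.DM Pool.Agent.helper78.ED

theorem EXPN (hRID : RID_stmt) : EXPN_stmt := by
  intro Z c A B w v hA hB
  have h1 : ((∑ x ∈ A, ∑ y ∈ B, w x * v y * ‖RR Z c x y‖ ^ 2 : ℝ) : ℂ) =
      ∑ x ∈ A, ∑ y ∈ B, ∑ ρ ∈ Z, ∑ ρ' ∈ Z, c ρ * (starRingEnd ℂ) (c ρ') *
        (((w x : ℂ) * (x : ℂ) ^ (-(((ρ.im - ρ'.im : ℝ) : ℂ) * I))) *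
        ((v y : ℂ) * (starRingEnd ℂ) ((y : ℂ) ^ (-(((ρ.im - ρ'.im : ℝ) : ℂ) * I))))) := by
    rw [Complex.ofReal_sum]
    refine Finset.sum_congr rfl fun x hx => ?_
    rw [Complex.ofReal_sum]
    refine Finset.sum_congr rfl fun y hy => ?_
    have hx1 : 1 ≤ x := Nat.one_le_iff_ne_zero.2 fun h => hA (h ▸ hx)
    have hy1 : 1 ≤ y := Nat.one_le_iff_ne_zero.2 fun h => hB (h ▸ hy)
    rw [Complex.ofReal_mul, Complex.ofReal_mul, hRID Z c x y hx1 hy1, Finset.mul_sum]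
    refine Finset.sum_congr rfl fun ρ _ => ?_
    rw [Finset.mul_sum]
    refine Finset.sum_congr rfl fun ρ' _ => ?_
    ring
  have h2 : ∀ ρ ρ' : ℂ, c ρ * (starRingEnd ℂ) (c ρ') *
      ((∑ x ∈ A, (w x : ℂ) * (x : ℂ) ^ (-(((ρ.im - ρ'.im : ℝ) : ℂ) * I))) *
       (starRingEnd ℂ) (∑ y ∈ B, (v y : ℂ) * (y : ℂ) ^ (-(((ρ.im - ρ'.im : ℝ) : ℂ) * I)))) =
      ∑ x ∈ A, ∑ y ∈ B, c ρ * (starRingEnd ℂ) (c ρ') *
        (((w x : ℂ) * (x : ℂ) ^ (-(((ρ.im - ρ'.im : ℝ) : ℂ) * I))) *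
        ((v y : ℂ) * (starRingEnd ℂ) ((y : ℂ) ^ (-(((ρ.im - ρ'.im : ℝ) : ℂ) * I))))) := by
    intro ρ ρ'
    rw [map_sum, Finset.sum_mul_sum, Finset.mul_sum]
    refine Finset.sum_congr rfl fun x _ => ?_
    rw [Finset.mul_sum]
    refine Finset.sum_congr rfl fun y _ => ?_
    rw [map_mul, Complex.conj_ofReal]
  rw [h1]
  simp only [h2]
  rw [Finset.sum_comm' (s := A) (t := fun _ => B) (t' := B) (s' := fun _ => A) (by tauto)]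
  have h3 : ∀ y ∈ B, ∑ x ∈ A, ∑ ρ ∈ Z, ∑ ρ' ∈ Z, c ρ * (starRingEnd ℂ) (c ρ') *
        (((w x : ℂ) * (x : ℂ) ^ (-(((ρ.im - ρ'.im : ℝ) : ℂ) * I))) *
        ((v y : ℂ) * (starRingEnd ℂ) ((y : ℂ) ^ (-(((ρ.im - ρ'.im : ℝ) : ℂ) * I))))) =
      ∑ ρ ∈ Z, ∑ ρ' ∈ Z, ∑ x ∈ A, c ρ * (starRingEnd ℂ) (c ρ') *
        (((w x : ℂ) * (x : ℂ) ^ (-(((ρ.im - ρ'.im : ℝ) : ℂ) * I))) *
        ((v y : ℂ) * (starRingEnd ℂ) ((y : ℂ) ^ (-(((ρ.im - ρ'.im : ℝ) : ℂ) * I))))) := by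
    intro y _
    rw [Finset.sum_comm]
    refine Finset.sum_congr rfl fun ρ _ => ?_
    rw [Finset.sum_comm]
  rw [Finset.sum_congr rfl h3, Finset.sum_comm]
  refine Finset.sum_congr rfl fun ρ _ => ?_
  rw [Finset.sum_comm]
  refine Finset.sum_congr rfl fun ρ' _ => ?_
  rw [Finset.sum_comm]

end Pool.Agent.DH
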