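import Pool.Agent.helper15.DH.Spec

set_option autoImplicit false

open Complex MeasureTheory

namespace Pool.Agent.DH

open Pool.Agent.helper84.DM Pool.Agent.helper78.ED

theorem QID (hEXPN : EXPN_stmt) : QID_stmt := by
  intro Z L
  have h0 : 0 ∉ IL L := by
    unfold IL
    rw [Finset.mem_Ioc]
    omega
  have h1 := hEXPN Z (fun _ => 1) (IL L) (IL L) (fun _ => 1) (fun _ => 1) h0 h0
  simp only [one_mul, mul_one, map_one, Complex.ofReal_one] at h1
  have h2 : ((QQ Z L : ℝ) : ℂ) =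
      ((∑ ρ ∈ Z, ∑ ρ' ∈ Z, ‖PL (IL L) (ρ.im - ρ'.im)‖ ^ 2 : ℝ) : ℂ) := by
    unfold QQ
    rw [h1, Complex.ofReal_sum]
    refine Finset.sum_congr rfl fun ρ _ => ?_
    rw [Complex.ofReal_sum]
    refine Finset.sum_congr rfl fun ρ' _ => ?_
    unfold PL
    rw [Complex.mul_conj']
    push_cast
    rfl
  exact_mod_cast h2

end Pool.Agent.DH
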