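import Pool.Agent.helper15.DH.Spec

set_option autoImplicit false

open Complex MeasureTheory

namespace Pool.Agent.DH

open Pool.Agent.helper84.DM Pool.Agent.helper78.ED

theorem RID_exp {x : ℕ} (hx : 1 ≤ x) (w : ℂ) :
    (x : ℂ) ^ w = Complex.exp (((Real.log x : ℝ) : ℂ) * w) := by
  have hx0 : (x : ℂ) ≠ 0 := by exact_mod_cast (by omega : x ≠ 0)
  rw [Complex.cpow_def_of_ne_zero hx0, Complex.natCast_log]

theorem RID : RID_stmt := by
  intro Z c x y hx hy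
  have h0 : ((‖RR Z c x y‖ ^ 2 : ℝ) : ℂ) = RR Z c x y * (starRingEnd ℂ) (RR Z c x y) := by
    rw [Complex.mul_conj']
    push_cast
    rfl
  rw [h0]
  unfold RR
  rw [map_sum, Finset.sum_mul_sum]
  refine Finset.sum_congr rfl fun ρ _ => Finset.sum_congr rfl fun ρ' _ => ?_
  simp only [map_mul]
  rw [RID_exp hx, RID_exp hy, RID_exp hx, RID_exp hy, RID_exp hx, RID_exp hy,
    ← Complex.exp_conj, ← Complex.exp_conj, ← Complex.exp_conj]
  simp only [map_mul, map_neg, Complex.conj_ofReal, Complex.conj_I]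
  have e1 : c ρ * (Complex.exp (((Real.log x : ℝ) : ℂ) * -(((ρ.im : ℝ) : ℂ) * I)) *
      Complex.exp (((Real.log y : ℝ) : ℂ) * (((ρ.im : ℝ) : ℂ) * I))) *
      ((starRingEnd ℂ) (c ρ') * (Complex.exp (((Real.log x : ℝ) : ℂ) * -(((ρ'.im : ℝ) : ℂ) * -I)) *
      Complex.exp (((Real.log y : ℝ) : ℂ) * (((ρ'.im : ℝ) : ℂ) * -I)))) =
      c ρ * (starRingEnd ℂ) (c ρ') *
      Complex.exp (((Real.log x : ℝ) : ℂ) * -(((ρ.im : ℝ) : ℂ) * I) +
        ((Real.log y : ℝ) : ℂ) * (((ρ.im : ℝ) : ℂ) * I) +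
        (((Real.log x : ℝ) : ℂ) * -(((ρ'.im : ℝ) : ℂ) * -I) +
        ((Real.log y : ℝ) : ℂ) * (((ρ'.im : ℝ) : ℂ) * -I))) := by
    rw [Complex.exp_add, Complex.exp_add, Complex.exp_add]
    ring
  have e2 : Complex.exp (((Real.log x : ℝ) : ℂ) * -(((ρ.im - ρ'.im : ℝ) : ℂ) * I)) *
      Complex.exp (((Real.log y : ℝ) : ℂ) * -(((ρ.im - ρ'.im : ℝ) : ℂ) * -I)) =
      Complex.exp (((Real.log x : ℝ) : ℂ) * -(((ρ.im : ℝ) : ℂ) * I) +
        ((Real.log y : ℝ) : ℂ) * (((ρ.im : ℝ) : ℂ) * I) +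
        (((Real.log x : ℝ) : ℂ) * -(((ρ'.im : ℝ) : ℂ) * -I) +
        ((Real.log y : ℝ) : ℂ) * (((ρ'.im : ℝ) : ℂ) * -I))) := by
    rw [← Complex.exp_add]
    congr 1
    push_cast
    ring
  rw [e1, e2]

end Pool.Agent.DH
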