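import Pool.Agent.helper18.DH.SpecM

/-!
# Module NSZ of project dh (helper13)
-/

set_option autoImplicit false

open Filter Topology MeasureTheory
open scoped commutatorElement

namespace Pool.Agent.helper90.DH

open Pool.Agent.helper64.D2

theorem NSZ (hSZC : SZC_stmt) (hNCA : NCA_stmt) : NSZ_stmt := by
  obtain ⟨-, hS2, -, -, hS5⟩ := hSZC
  obtain ⟨hpos, -, -, -, -, hN, -, -, -⟩ := hNCA
  refine ⟨?_, ?_⟩
  · intro g a hg ha x
    have ha0 : 0 ≤ a := (abs_nonneg _).trans (hg 0)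
    have h1 := (hS2 g a hg x).1
    have h2 := (abs_le.1 h1).1
    have hp : 0 < deriv (ev g) x := hpos g x
    have h3 := hg x
    unfold Nn
    rw [abs_div, abs_of_pos hp, div_le_iff₀ hp]
    have h4 : a ≤ a * (1 + 2 * a) * (1 - a) := by nlinarith [mul_nonneg ha0 ha0]
    have h5 : a * (1 + 2 * a) * (1 - a) ≤ a * (1 + 2 * a) * deriv (ev g) x := by
      apply mul_le_mul_of_nonneg_left _ (by positivity)
      linarith
    linarith
  · intro g b hb hb8
    have hb0 : 0 ≤ b := (abs_nonneg _).trans (hb 0)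
    obtain ⟨a0, ha0⟩ := hS5 g
    have hbdd : BddAbove (Set.range fun x => |d2 (ev g) x|) := ⟨a0, by rintro _ ⟨x, rfl⟩; exact ha0 x⟩
    obtain ⟨S, hS⟩ : ∃ S : ℝ, S = ⨆ x, |d2 (ev g) x| := ⟨_, rfl⟩
    have hSz : Sz g S := fun x => by rw [hS]; exact le_ciSup hbdd x
    have hS0 : 0 ≤ S := (abs_nonneg _).trans (hSz 0)
    have h1 : ∀ x, |d2 (ev g) x| ≤ b * (1 + S) := by
      intro x
      rw [hN g x, abs_mul]
      have h2 := (abs_le.1 (hS2 g S hSz x).1).2
      have hp : 0 < deriv (ev g) x := hpos g x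
      rw [abs_of_pos hp]
      apply mul_le_mul (hb x) (by linarith) hp.le hb0
    have h2 : S ≤ b * (1 + S) := by rw [hS]; rw [hS] at h1; exact ciSup_le h1
    have h3 : S ≤ b * (1 + 2 * b) := by nlinarith [mul_nonneg hb0 hS0, mul_nonneg hb0 hb0]
    exact fun x => (hSz x).trans h3

end Pool.Agent.helper90.DH
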