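import Pool.Agent.helper18.DH.SpecM
import Pool.Agent.helper64.D2.SpecC

/-!
# Module QPR of project dh (helper13)
-/

set_option autoImplicit false

open Filter Topology MeasureTheory
open scoped commutatorElement

namespace Pool.Agent.helper90.DH

open Pool.Agent.helper64.D2

theorem QPR_alg (A1 B1 A2 B2 y1 y2 ε η : ℝ) (hε : 0 ≤ ε) (hε1 : ε ≤ 1 / 100) (hη : 0 ≤ η) (hA1 : |A1 - 1| ≤ ε) (hB1 : |B1 - 1| ≤ ε)
    (hB2 : |B2| ≤ ε) (hy1 : |y1| ≤ η) (hy2 : |y2| ≤ η) (e1 : A1 = B1 + y1) (e2 : A2 = B2 + y2) :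
    |A2 / A1 - B2 / B1| ≤ 2 * η ∧ |A2 / A1 - B2 / B1 - y2| ≤ 4 * ε * η := by
  have hA := abs_le.1 hA1
  have hB := abs_le.1 hB1
  have hAp : 0 < A1 := by linarith
  have hBp : 0 < B1 := by linarith
  have hAi : A1⁻¹ ≤ 102 / 100 := by
    rw [inv_le_comm₀ hAp (by norm_num)]; norm_num; linarith
  have hBi : B1⁻¹ ≤ 102 / 100 := by
    rw [inv_le_comm₀ hBp (by norm_num)]; norm_num; linarith
  have hAi0 : 0 ≤ A1⁻¹ := by positivity
  have hBi0 : 0 ≤ B1⁻¹ := by positivity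
  have key : A2 / A1 - B2 / B1 - y2 = y2 * (1 - A1) * A1⁻¹ - B2 * y1 * (A1⁻¹ * B1⁻¹) := by
    rw [e2]
    have h1 : y1 = A1 - B1 := by rw [e1]; ring
    rw [h1]
    field_simp
    ring
  have hηε : 0 ≤ η * ε := mul_nonneg hη hε
  have t1 : |y2 * (1 - A1) * A1⁻¹| ≤ η * ε * (102 / 100) := by
    rw [abs_mul, abs_mul, abs_of_nonneg hAi0]
    apply mul_le_mul _ hAi hAi0 hηε
    apply mul_le_mul hy2 _ (abs_nonneg _) hη
    rw [abs_sub_comm]; exact hA1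
  have t2 : |B2 * y1 * (A1⁻¹ * B1⁻¹)| ≤ η * ε * (2 : ℝ) := by
    rw [abs_mul, abs_mul, abs_of_nonneg (mul_nonneg hAi0 hBi0)]
    have h1 : |B2| * |y1| ≤ η * ε := by
      have := mul_le_mul hB2 hy1 (abs_nonneg _) hε
      linarith
    have h2 : A1⁻¹ * B1⁻¹ ≤ 2 := by nlinarith
    exact mul_le_mul h1 h2 (mul_nonneg hAi0 hBi0) hηε
  have t3 : |A2 / A1 - B2 / B1 - y2| ≤ 4 * ε * η := by
    rw [key]
    calc _ ≤ |y2 * (1 - A1) * A1⁻¹| + |B2 * y1 * (A1⁻¹ * B1⁻¹)| := abs_sub _ _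
      _ ≤ η * ε * (102 / 100) + η * ε * 2 := add_le_add t1 t2
      _ ≤ 4 * ε * η := by nlinarith
  refine ⟨?_, t3⟩
  have t4 : |A2 / A1 - B2 / B1| ≤ |A2 / A1 - B2 / B1 - y2| + |y2| := by
    have := abs_add_le (A2 / A1 - B2 / B1 - y2) y2
    rwa [sub_add_cancel] at this
  have t5 : ε * η ≤ 1 / 100 * η := mul_le_mul_of_nonneg_right hε1 hη
  linarith

theorem QPR_dsum (s : Finset ℕ) (Y : ℕ → ℝ → ℝ) (hY : ∀ k ∈ s, Differentiable ℝ (Y k)) :
    deriv (fun x => ∑ k ∈ s, Y k x) = fun x => ∑ k ∈ s, deriv (Y k) x := by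
  funext x
  exact (HasDerivAt.fun_sum (fun k hk => (hY k hk x).hasDerivAt)).deriv

theorem QPR_c1 (f : ℝ → ℝ) (hf : ContDiff ℝ 2 f) : Differentiable ℝ f ∧ Differentiable ℝ (deriv f) := by
  have h : ContDiff ℝ (1 + 1) f := by
    rw [show (1 : WithTop ℕ∞) + 1 = 2 from one_add_one_eq_two]
    exact hf
  exact ⟨hf.differentiable (by norm_num), (contDiff_succ_iff_deriv.1 h).2.2.differentiable (by norm_num)⟩

theorem QPR_d2sum (s : Finset ℕ) (Y : ℕ → ℝ → ℝ) (hY : ∀ k ∈ s, ContDiff ℝ 2 (Y k)) (x : ℝ) :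
    d2 (fun x => ∑ k ∈ s, Y k x) x = ∑ k ∈ s, d2 (Y k) x := by
  unfold d2
  rw [QPR_dsum s Y (fun k hk => (QPR_c1 _ (hY k hk)).1)]
  rw [QPR_dsum s (fun k => deriv (Y k)) (fun k hk => (QPR_c1 _ (hY k hk)).2)]

theorem QPR (hSZC : SZC_stmt) (hBAS : BAS_stmt) : QPR_stmt := by
  obtain ⟨hS1, hS2, -, -, -⟩ := hSZC
  intro q Y Q ε d L hq hF hε hε1 hQ
  have hq0 : (0 : ℝ) < q := by exact_mod_cast hq
  have hL : 0 ≤ L := by
    have h := ((hF 0 (by omega)).2.2 0).2.2.2 1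
    have h1 := (abs_nonneg _).trans h
    norm_num at h1
    exact h1
  have hη : 0 ≤ ε / q := by positivity
  have hYc : ∀ i, ∀ k ∈ Finset.Ico i q, ContDiff ℝ 2 (Y k) := fun i k hk => (hF k (Finset.mem_Ico.1 hk).2).1
  have hd1 : ∀ i ≤ q, ∀ x, deriv (ev (Q i)) x = 1 + ∑ k ∈ Finset.Ico i q, deriv (Y k) x := by
    intro i hi x
    rw [(hS1 _ _ (hQ i hi)).2.2.1 x, QPR_dsum _ Y (fun k hk => (QPR_c1 _ (hYc i k hk)).1)]
  have hd2 : ∀ i ≤ q, ∀ x, d2 (ev (Q i)) x = ∑ k ∈ Finset.Ico i q, d2 (Y k) x := by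
    intro i hi x
    rw [(hS1 _ _ (hQ i hi)).2.2.2 x, QPR_d2sum _ Y (hYc i)]
  have hcard : ∀ i ≤ q, ((Finset.Ico i q).card : ℝ) ≤ q := by
    intro i hi
    rw [Nat.card_Ico]
    exact_mod_cast Nat.sub_le q i
  have hSz : ∀ i ≤ q, Sz (Q i) ε := by
    intro i hi x
    rw [hd2 i hi x]
    calc |∑ k ∈ Finset.Ico i q, d2 (Y k) x| ≤ ∑ k ∈ Finset.Ico i q, |d2 (Y k) x| := Finset.abs_sum_le_sum_abs _ _
      _ ≤ ∑ k ∈ Finset.Ico i q, ε / q := Finset.sum_le_sum (fun k hk => ((hF k (Finset.mem_Ico.1 hk).2).2.2 x).1)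
      _ = (Finset.Ico i q).card * (ε / q) := by rw [Finset.sum_const, nsmul_eq_mul]
      _ ≤ q * (ε / q) := mul_le_mul_of_nonneg_right (hcard i hi) hη
      _ = ε := by field_simp
  have hLp : ∀ i ≤ q, Lp (Q i) (q * L) := by
    intro i hi x y
    rw [hd2 i hi x, hd2 i hi y, ← Finset.sum_sub_distrib]
    calc |∑ k ∈ Finset.Ico i q, (d2 (Y k) x - d2 (Y k) y)| ≤ ∑ k ∈ Finset.Ico i q, |d2 (Y k) x - d2 (Y k) y| := Finset.abs_sum_le_sum_abs _ _
      _ ≤ ∑ k ∈ Finset.Ico i q, L * |x - y| := Finset.sum_le_sum (fun k hk => ((hF k (Finset.mem_Ico.1 hk).2).2.2 x).2.2.2 y)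
      _ = (Finset.Ico i q).card * (L * |x - y|) := by rw [Finset.sum_const, nsmul_eq_mul]
      _ ≤ q * (L * |x - y|) := mul_le_mul_of_nonneg_right (hcard i hi) (mul_nonneg hL (abs_nonneg _))
      _ = q * L * |x - y| := by ring
  refine ⟨fun i hi => ⟨hSz i hi, hLp i hi⟩, ?_, ?_⟩
  · apply Subtype.ext
    apply Equiv.ext
    intro x
    have h := hQ q le_rfl x
    simp only [Finset.Ico_self, Finset.sum_empty, add_zero] at h
    exact h
  · intro i hi x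
    obtain ⟨hc, hs, hb⟩ := hF i hi
    obtain ⟨hb1, hb2, -, -⟩ := hBAS (Y i) (1 / 5) (4 / 5) (ε / q) hc hs (fun x => (hb x).1) (by norm_num)
    have hy1 : |deriv (Y i) x| ≤ ε / q := by
      refine (hb1 x).trans ?_
      nlinarith
    have hy0 : |Y i x| ≤ ε / q := by
      refine (hb2 x).trans ?_
      nlinarith
    have hIco : Finset.Ico i q = insert i (Finset.Ico (i + 1) q) := by
      ext k
      simp only [Finset.mem_Ico, Finset.mem_insert]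
      omega
    have hni : i ∉ Finset.Ico (i + 1) q := by simp
    have e1 : deriv (ev (Q i)) x = deriv (ev (Q (i + 1))) x + deriv (Y i) x := by
      rw [hd1 i hi.le x, hd1 (i + 1) (by omega) x, hIco, Finset.sum_insert hni]; ring
    have e2 : d2 (ev (Q i)) x = d2 (ev (Q (i + 1))) x + d2 (Y i) x := by
      rw [hd2 i hi.le x, hd2 (i + 1) (by omega) x, hIco, Finset.sum_insert hni]; ring
    have hA1 := (hS2 (Q i) ε (hSz i hi.le) x).1
    have hB1 := (hS2 (Q (i + 1)) ε (hSz (i + 1) (by omega)) x).1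
    have hB2 := hSz (i + 1) (by omega) x
    obtain ⟨r1, r2⟩ := QPR_alg _ _ _ _ _ _ ε (ε / q) hε hε1 hη hA1 hB1 hB2 hy1 (hb x).1 e1 e2
    refine ⟨hy1, hy0, ?_, ?_, ?_⟩
    · unfold Nn
      refine r1.trans (le_of_eq ?_)
      ring
    · unfold Nn
      refine r2.trans (le_of_eq ?_)
      ring
    · have h1 := hQ i hi.le x
      have h2 := hQ (i + 1) (by omega) x
      simp only at h1 h2
      rw [h1, h2, hIco, Finset.sum_insert hni]; ring

end Pool.Agent.helper90.DH
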